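import Mathlib
import Pool.Agent.H53.SUnit

/-!
Counterexample data: `k = ℚ`, `X = ℙ¹`, `𝒜 = 𝒪(1)`, `𝒦 = 𝒪(-2)`, `D = [0] + [1] + [∞]`, `r = 1`.
The rational points of `ℙ¹` outside `supp D` are the `x : ℚ` with `x ≠ 0, 1`.
-/

namespace Pool.Agent.Results.MP_e44225_nt.Disproof

/-- `log⁺ t = log max {1, t}` -/
noncomputable def logp (t : ℝ) : ℝ := Real.log (max 1 t)

/-- local Weil function of `D = [0] + [1] + [∞]` at the absolute value `v`:
`log⁺ (1/|x|_v) + log⁺ (1/|x-1|_v) + log⁺ |x|_v` -/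
noncomputable def weil (v : ℚ → ℝ) (x : ℚ) : ℝ :=
  logp (v x)⁻¹ + logp (v (x - 1))⁻¹ + logp (v x)

/-- proximity function `m_S(D, x)` for `S = {∞} ∪ P`, `P` a finite set of primes -/
noncomputable def prox (P : Finset ℕ) (x : ℚ) : ℝ :=
  weil (fun y => |(y : ℝ)|) x + ∑ p ∈ P, weil (fun y => ((padicNorm p y : ℚ) : ℝ)) x

/-- For every `C > 0` there is a finite set `S = {∞} ∪ P` of places of `ℚ` such that, whichever
representatives modulo bounded functions `hK`, `hA`, `m` of `h_𝒦 = -2 h`, `h_𝒜 = h`, `m_S(D, ·)` are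
taken, `h_𝒦(x) + m_S(D, x) < C log⁺ h_𝒜(x) + d(x)` fails for infinitely many `x ∈ ℙ¹(ℚ) ∖ D`. -/
theorem result : ∀ C : ℝ, 0 < C → ∃ P : Finset ℕ, (∀ p ∈ P, p.Prime) ∧
    ∀ (M : ℝ) (hK hA m : ℚ → ℝ),
      (∀ x, |hK x - (-2) * Height.logHeight₁ x| ≤ M) →
      (∀ x, |hA x - Height.logHeight₁ x| ≤ M) →
      (∀ x, x ≠ 0 → x ≠ 1 → |m x - prox P x| ≤ M) →
      {x : ℚ | x ≠ 0 ∧ x ≠ 1 ∧ ¬ (hK x + m x < C * logp (hA x) +
        Real.log |(NumberField.discr ℚ : ℝ)| / (Module.finrank ℚ ℚ : ℝ))}.Infinite := by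
  intro C hC
  have h := Pool.Agent.H53.SUnit.main C hC
  simpa only [prox, weil, logp, Rat.numberField_discr, Int.cast_one, abs_one, Real.log_one,
    zero_div, add_zero] using h

end Pool.Agent.Results.MP_e44225_nt.Disproof
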